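import Pool.Agent.helper52.ED.Spec

set_option autoImplicit false

open Complex Metric Set Filter Topology MeasureTheory
open Pool.Agent.helper98.ILF Pool.Agent.helper16.Multibrot HY

noncomputable section

namespace ED

/-- in one cell the pseudo distance is small. -/
theorem VCL_T {u v : ℂ} {s d : ℝ} (hs : 0 < s) (hu : s ≤ 1 - ‖u‖) (hv : ‖v‖ < 1)
    (h : ‖v - u‖ ≤ d * s) (hd : 0 ≤ d) : ‖T u v‖ ≤ d := by
  unfold T
  rw [norm_div]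
  have h1 : s ≤ ‖1 - (starRingEnd ℂ) u * v‖ := by
    have h2 : ‖(1 : ℂ)‖ - ‖(starRingEnd ℂ) u * v‖ ≤ ‖1 - (starRingEnd ℂ) u * v‖ :=
      norm_sub_norm_le _ _
    rw [norm_one, norm_mul, RCLike.norm_conj] at h2
    have h3 : ‖u‖ * ‖v‖ ≤ ‖u‖ * 1 := mul_le_mul_of_nonneg_left hv.le (norm_nonneg _)
    linarith
  have h4 : 0 < ‖1 - (starRingEnd ℂ) u * v‖ := lt_of_lt_of_le hs h1
  rw [div_le_iff₀ h4]
  exact h.trans (mul_le_mul_of_nonneg_left h1 hd)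

theorem VCL_floor {x δ : ℝ} (hδ : 0 < δ) (hx : |x| ≤ 1) :
    ⌊x / δ⌋ ∈ Finset.Icc (-⌈1 / δ⌉) ⌈1 / δ⌉ := by
  have h1 := abs_le.1 hx
  rw [Finset.mem_Icc]
  constructor
  · rw [← Int.floor_neg]
    apply Int.floor_le_floor
    rw [← neg_div]
    exact div_le_div_of_nonneg_right h1.1 hδ.le
  · have h2 : ⌊x / δ⌋ ≤ ⌊1 / δ⌋ := Int.floor_le_floor (div_le_div_of_nonneg_right h1.2 hδ.le)
    exact h2.trans (Int.floor_le_ceil _)

theorem VCL_diff {x y δ : ℝ} (hδ : 0 < δ) (h : ⌊x / δ⌋ = ⌊y / δ⌋) : |x - y| ≤ δ := by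
  have h1 := Int.abs_sub_lt_one_of_floor_eq_floor h
  rw [← sub_div, abs_div, abs_of_pos hδ, div_lt_one hδ] at h1
  exact h1.le

theorem VCL_card (δ : ℝ) (hδ : 0 < δ) :
    (((Finset.Icc (-⌈1 / δ⌉) ⌈1 / δ⌉) ×ˢ (Finset.Icc (-⌈1 / δ⌉) ⌈1 / δ⌉) :
      Finset (ℤ × ℤ)).card : ℝ) ≤ (2 / δ + 3) ^ 2 := by
  rw [Finset.card_product, Nat.cast_mul, ← sq]
  have h0 : 0 ≤ ⌈1 / δ⌉ := Int.ceil_nonneg (by positivity)
  have h1 : ((Finset.Icc (-⌈1 / δ⌉) ⌈1 / δ⌉).card : ℝ) = 2 * (⌈1 / δ⌉ : ℝ) + 1 := by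
    rw [Int.card_Icc]
    have h2 : ((⌈1 / δ⌉ + 1 - -⌈1 / δ⌉).toNat : ℤ) = ⌈1 / δ⌉ + 1 - -⌈1 / δ⌉ :=
      Int.toNat_of_nonneg (by linarith)
    have h3 : (((⌈1 / δ⌉ + 1 - -⌈1 / δ⌉).toNat : ℤ) : ℝ) = ((⌈1 / δ⌉ + 1 - -⌈1 / δ⌉ : ℤ) : ℝ) := by
      rw [h2]
    rw [Int.cast_natCast] at h3
    rw [h3]
    push_cast
    ring
  rw [h1]
  have h4 : (⌈1 / δ⌉ : ℝ) < 1 / δ + 1 := Int.ceil_lt_add_one _
  have h5 : (0 : ℝ) ≤ (⌈1 / δ⌉ : ℝ) := by exact_mod_cast h0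
  have h6 : 2 / δ = 2 * (1 / δ) := by ring
  apply pow_le_pow_left₀ (by linarith)
  rw [h6]
  linarith

theorem VCL : VCL_stmt := by
  intro η hη
  refine ⟨⌈(4 / η + 3) ^ 2⌉₊, ?_⟩
  intro w s ι v L hw hw1 hs hs1 hv hcard
  classical
  set δ : ℝ := η * w * s / 2 with hδdef
  have hδ : 0 < δ := by positivity
  set t : Finset (ℤ × ℤ) := (Finset.Icc (-⌈1 / δ⌉) ⌈1 / δ⌉) ×ˢ (Finset.Icc (-⌈1 / δ⌉) ⌈1 / δ⌉)
    with ht
  set g : ℕ → ℤ × ℤ := fun i => (⌊(v i).re / δ⌋, ⌊(v i).im / δ⌋) with hg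
  have hmem : ∀ i ∈ ι, g i ∈ t := by
    intro i hi
    have h1 : ‖v i‖ < 1 := by
      have := (hv i hi).1
      simpa [UD] using this
    rw [ht, Finset.mem_product]
    exact ⟨VCL_floor hδ ((Complex.abs_re_le_norm _).trans h1.le),
      VCL_floor hδ ((Complex.abs_im_le_norm _).trans h1.le)⟩
  have hws : 0 < w * s := mul_pos hw hs
  have hws1 : w * s ≤ 1 := mul_le_one₀ hw1 hs.le hs1
  have hct : (t.card : ℝ) ≤ (⌈(4 / η + 3) ^ 2⌉₊ : ℝ) / (w * s) ^ 2 := by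
    refine (VCL_card δ hδ).trans ?_
    rw [le_div_iff₀ (by positivity)]
    have h1 : (2 / δ + 3) ^ 2 * (w * s) ^ 2 = (4 / η + 3 * (w * s)) ^ 2 := by
      rw [hδdef]
      field_simp
      ring
    rw [h1]
    have h2 : (4 / η + 3 * (w * s)) ^ 2 ≤ (4 / η + 3) ^ 2 := by
      apply pow_le_pow_left₀ (by positivity)
      linarith
    exact h2.trans (Nat.le_ceil _)
  have hlt : t.card * L < ι.card := by
    have h1 : (t.card : ℝ) * L < ι.card := by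
      refine lt_of_le_of_lt ?_ hcard
      exact mul_le_mul_of_nonneg_right hct (Nat.cast_nonneg _)
    exact_mod_cast h1
  obtain ⟨y, -, hy⟩ := Finset.exists_lt_card_fiber_of_mul_lt_card_of_maps_to hmem hlt
  refine ⟨ι.filter (fun i => g i = y), Finset.filter_subset _ _, hy, ?_⟩
  intro i hi l hl
  rw [Finset.mem_filter] at hi hl
  have hE : g l = g i := by rw [hi.2, hl.2]
  have h1 : ⌊(v l).re / δ⌋ = ⌊(v i).re / δ⌋ := congrArg Prod.fst hE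
  have h2 : ⌊(v l).im / δ⌋ = ⌊(v i).im / δ⌋ := congrArg Prod.snd hE
  have h3 := VCL_diff hδ h1
  have h4 := VCL_diff hδ h2
  have h5 : ‖v l - v i‖ ≤ |(v l - v i).re| + |(v l - v i).im| := Complex.norm_le_abs_re_add_abs_im _
  rw [Complex.sub_re, Complex.sub_im] at h5
  have h6 : ‖v l‖ < 1 := by
    have := (hv l hl.1).1
    simpa [UD] using this
  refine VCL_T hs (hv i hi.1).2 h6 ?_ (by positivity)
  have h7 : η * w * s = δ + δ := by rw [hδdef]; ring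
  rw [h7]
  linarith

end ED
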